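import Pool.Agent.H877.TP.R17

set_option autoImplicit false

/-!
Question Q1: every nonsingular real plane curve of type I and degree `m ≥ 4` with exactly `M - 2`
real components is totally real under a real pencil of curves of degree `m - 3`.
-/

namespace Pool.Agent.Results.MP_5888dd_ag.DegreeMMinusThree
open MvPolynomial

/-- the complex projective plane -/
abbrev CP2 := Projectivization ℂ (Fin 3 → ℂ)

/-- the usual (quotient) topology of the complex projective plane -/
@[instance_reducible] noncomputable def cp2Top : TopologicalSpace CP2 :=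
  TopologicalSpace.coinduced
    (fun v : {v : Fin 3 → ℂ // v ≠ 0} => Projectivization.mk ℂ v.1 v.2) inferInstance

/-- the complex zero set of a real form -/
def zeros (G : MvPolynomial (Fin 3) ℝ) : Set CP2 := {P | aeval P.rep G = 0}

/-- the real projective plane inside the complex one -/
def RP2 : Set CP2 :=
  {P | ∃ (v : Fin 3 → ℝ) (h : (fun i => (v i : ℂ)) ≠ 0), P = Projectivization.mk ℂ (fun i => (v i : ℂ)) h}

/-- the plane curve `F = 0` is nonsingular -/
def Nonsingular (F : MvPolynomial (Fin 3) ℝ) : Prop :=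
  ∀ v : Fin 3 → ℂ, v ≠ 0 → aeval v F = 0 → ∃ i, aeval v (pderiv i F) ≠ 0

/-- the curve `F = 0` is of type I (dividing): its set of nonreal points is disconnected -/
def TypeI (F : MvPolynomial (Fin 3) ℝ) : Prop :=
  ¬ @IsPreconnected CP2 cp2Top (zeros F \ RP2)

/-- the number of connected components of the real locus of the curve `F = 0` -/
noncomputable def numComponents (F : MvPolynomial (Fin 3) ℝ) : ℕ :=
  Nat.card (@ConnectedComponents (zeros F ∩ RP2 : Set CP2) (@instTopologicalSpaceSubtype CP2 _ cp2Top))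

/-- the curve `F = 0` is totally real under the pencil spanned by `G` and `H`: all real members of the
pencil meet the complex curve in real points only -/
def TotallyRealUnder (F G H : MvPolynomial (Fin 3) ℝ) : Prop :=
  ∀ l k : ℝ, (l ≠ 0 ∨ k ≠ 0) → zeros F ∩ zeros (C l * G + C k * H) ⊆ RP2

theorem result (m : ℕ) (hm : 4 ≤ m) (F : MvPolynomial (Fin 3) ℝ) (hF : F.IsHomogeneous m)
    (hns : Nonsingular F) (hI : TypeI F) (hcomp : numComponents F + 2 = (m - 1) * (m - 2) / 2 + 1) :
    ∃ G H : MvPolynomial (Fin 3) ℝ, G.IsHomogeneous (m - 3) ∧ H.IsHomogeneous (m - 3) ∧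
      LinearIndependent ℝ ![G, H] ∧ TotallyRealUnder F G H := by
  have hae : ∀ (v : Fin 3 → ℂ) (G : MvPolynomial (Fin 3) ℝ), aeval v G = eval v (H877.TP.cxf G) := by
    intro v G
    rw [aeval_def, eval₂_eq_eval_map]
  have hns' : ∀ v : Fin 3 → ℂ, v ≠ 0 → eval v (H877.TP.cxf F) = 0 →
      ∃ i, eval v (pderiv i (H877.TP.cxf F)) ≠ 0 := by
    intro v hv h0
    obtain ⟨i, hi⟩ := hns v hv (by rw [hae]; exact h0)
    refine ⟨i, ?_⟩
    rw [hae] at hi
    rwa [pderiv_map]
  let Cv := H877.TP.mkCurve F m (by omega) hF hns'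
  have hreal : ∀ P : CP2, P ∈ RP2 ↔ H877.TP.Rl P.rep := fun P => (H877.TP.Rl_rep_iff P).symm
  have hset : zeros F \ RP2 = {P | eval P.rep Cv.F = 0 ∧ ¬ H877.TP.Rl P.rep} := by
    ext P
    rw [Set.mem_sdiff, hreal]
    exact and_congr (by unfold zeros; rw [Set.mem_ofPred_eq, hae]; rfl) Iff.rfl
  have hset' : zeros F ∩ RP2 = H877.TP.Curve.RL Cv := by
    ext P
    rw [Set.mem_inter_iff, hreal]
    exact and_congr (by unfold zeros; rw [Set.mem_ofPred_eq, hae]; rfl) Iff.rfl
  have hnum : numComponents F = Nat.card (@ConnectedComponents (H877.TP.Curve.RL Cv)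
      (@instTopologicalSpaceSubtype CP2 _ cp2Top)) := by
    unfold numComponents
    rw [hset']
  have hg : Cv.g = (m - 1) * (m - 2) / 2 := rfl
  have hcard : Nat.card (@ConnectedComponents (H877.TP.Curve.RL Cv)
      (@instTopologicalSpaceSubtype CP2 _ cp2Top)) + 1 = Cv.g := by
    rw [← hnum, hg]; omega
  have hge : 3 ≤ Cv.g := by
    have h1 := H877.TP.two_gen (d := m) (by omega)
    have h2 : Cv.g = H877.TP.gen m := rfl
    obtain ⟨s, rfl⟩ := Nat.exists_eq_add_of_le hm
    push_cast at h1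
    rw [h2]
    have h3 : (6 : ℤ) ≤ 2 * (H877.TP.gen (4 + s) : ℤ) := by rw [h1]; nlinarith
    omega
  have hne : Nonempty (@ConnectedComponents (H877.TP.Curve.RL Cv)
      (@instTopologicalSpaceSubtype CP2 _ cp2Top)) := by
    have : Nat.card (@ConnectedComponents (H877.TP.Curve.RL Cv)
      (@instTopologicalSpaceSubtype CP2 _ cp2Top)) ≠ 0 := by omega
    exact (Nat.card_ne_zero.1 this).1
  obtain ⟨W₁, W₀, h1, h0, hb1, hb0, hnc, hn0, htot⟩ := @H877.TP.Curve.main Cv hne hm
    (H877.TP.mkCurve_real F m (by omega) hF hns') (by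
      intro h
      apply hI
      rw [hset]; exact h) hcard
  -- real forms
  have hcf : ∀ K : MvPolynomial (Fin 3) ℂ, H877.TP.bar K = K → H877.TP.cxf (H877.TP.cf Complex.re K) = K := by
    intro K hK
    have h2 : H877.TP.cf Complex.im K = 0 := by
      ext s
      rw [H877.TP.coeff_cf _ Complex.zero_im, coeff_zero]
      have h3 := congrArg (coeff s) hK
      unfold H877.TP.bar at h3
      rw [coeff_map] at h3
      exact Complex.conj_eq_iff_im.1 h3
    have h3 := H877.TP.cf_re_im K
    rw [h2] at h3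
    unfold H877.TP.cxf at h3 ⊢
    rw [map_zero, mul_zero, add_zero] at h3
    exact h3
  have e1 := hcf W₁ hb1
  have e0 := hcf W₀ hb0
  set G := H877.TP.cf Complex.re W₁ with hG
  set H := H877.TP.cf Complex.re W₀ with hH
  have hcx : ∀ l k : ℝ, H877.TP.cxf (C l * G + C k * H) = C (l : ℂ) * W₁ + C (k : ℂ) * W₀ := by
    intro l k
    unfold H877.TP.cxf at e1 e0 ⊢
    rw [map_add, map_mul, map_mul, map_C, map_C, e1, e0]
    rfl
  refine ⟨G, H, H877.TP.cf_hom _ Complex.zero_re h1, H877.TP.cf_hom _ Complex.zero_re h0, ?_, ?_⟩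
  · rw [LinearIndependent.pair_iff]
    intro s t hst
    have h2 : C (s : ℂ) * W₁ + C (t : ℂ) * W₀ = 0 := by
      rw [← hcx, ← smul_eq_C_mul, ← smul_eq_C_mul, hst]
      unfold H877.TP.cxf
      rw [map_zero]
    have hs : s = 0 := by
      by_contra hs
      have hs' : (s : ℂ) ≠ 0 := by exact_mod_cast hs
      apply hnc
      refine ⟨-(t : ℂ) / (s : ℂ), ?_⟩
      have h3 : W₁ - (-(t : ℂ) / (s : ℂ)) • W₀ = 0 := by
        have h4 : C (s : ℂ)⁻¹ * (C (s : ℂ) * W₁ + C (t : ℂ) * W₀) = 0 := by rw [h2, mul_zero]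
        have h5 : (C (s : ℂ)⁻¹ : MvPolynomial (Fin 3) ℂ) * C (s : ℂ) = 1 := by
          rw [← map_mul, inv_mul_cancel₀ hs', map_one]
        have h6 : (C (-(t : ℂ) / (s : ℂ)) : MvPolynomial (Fin 3) ℂ) = -(C (s : ℂ)⁻¹ * C (t : ℂ)) := by
          rw [← map_mul, ← map_neg]; congr 1; ring
        rw [smul_eq_C_mul, h6]
        linear_combination h4 - W₁ * h5
      rw [h3]; exact dvd_zero _
    refine ⟨hs, ?_⟩
    by_contra ht
    have ht' : (t : ℂ) ≠ 0 := by exact_mod_cast ht
    apply hn0
    rw [hs, Complex.ofReal_zero, map_zero, zero_mul, zero_add] at h2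
    have h3 : W₀ = 0 := (mul_eq_zero.1 h2).resolve_left (by
      intro h4
      exact ht' (C_injective (Fin 3) ℂ (by rw [h4, map_zero])))
    rw [h3]; exact dvd_zero _
  · rintro l k hlk P ⟨hP1, hP2⟩
    rw [hreal]
    have hF0 : aeval P.rep F = 0 := hP1
    rw [hae] at hF0
    refine htot l k hlk P.rep ⟨P.rep_nonzero, hF0⟩ ?_
    have hm0 : aeval P.rep (C l * G + C k * H) = 0 := hP2
    rw [hae, hcx, map_add, map_mul, map_mul, eval_C, eval_C] at hm0
    exact hm0

end Pool.Agent.Results.MP_5888dd_ag.DegreeMMinusThree
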